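import Mathlib

/-!
# MP_4f9fa7_an, Q1 : Milman's moduli differ from their Birkhoff–James versions

In the plane whose unit ball is the regular hexagon, `ζ⁺(ε) - 1 > β⁺(ε)` for **every** `ε > 0` and
`ζ⁻(ε) - 1 < β⁻(ε)` for every `ε ∈ (1/2, 2)`; so both equalities fail, even at the same `ε = 1`.
-/

namespace Pool.Agent.Results.MP_4f9fa7_an.HexagonFails

section Defs

variable (X : Type*) [NormedAddCommGroup X] [NormedSpace ℝ X]

/-- `y ⊥ x`: `⟨p, y⟩ = 0` for some `p ∈ J₁(x)`. -/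
def QuasiOrth {X : Type*} [NormedAddCommGroup X] [NormedSpace ℝ X] (x y : X) : Prop :=
  ∃ p : X →L[ℝ] ℝ, ‖p‖ = 1 ∧ p x = 1 ∧ p y = 0

/-- `ζ⁻_X(ε)`. -/
noncomputable def zetaMinus (ε : ℝ) : ℝ :=
  sInf {t : ℝ | ∃ x y : X, ‖x‖ = 1 ∧ ‖y‖ = 1 ∧ QuasiOrth x y ∧ t = ‖x + ε • y‖}

/-- `ζ⁺_X(ε)`. -/
noncomputable def zetaPlus (ε : ℝ) : ℝ :=
  sSup {t : ℝ | ∃ x y : X, ‖x‖ = 1 ∧ ‖y‖ = 1 ∧ QuasiOrth x y ∧ t = ‖x + ε • y‖}

/-- Milman's modulus `β⁻_X(ε)`. -/
noncomputable def betaMinus (ε : ℝ) : ℝ :=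
  sInf {t : ℝ | ∃ x y : X, ‖x‖ = 1 ∧ ‖y‖ = 1 ∧ t = max ‖x + ε • y‖ ‖x - ε • y‖ - 1}

/-- Milman's modulus `β⁺_X(ε)`. -/
noncomputable def betaPlus (ε : ℝ) : ℝ :=
  sSup {t : ℝ | ∃ x y : X, ‖x‖ = 1 ∧ ‖y‖ = 1 ∧ t = min ‖x + ε • y‖ ‖x - ε • y‖ - 1}

end Defs

/-- The linear form `v ↦ v 0 + v 1 + v 2`. -/
def sumForm : (Fin 3 → ℝ) →ₗ[ℝ] ℝ where
  toFun v := v 0 + v 1 + v 2
  map_add' v w := by simp only [Pi.add_apply]; ring
  map_smul' c v := by simp only [Pi.smul_apply, smul_eq_mul, RingHom.id_apply]; ring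

/-- The hexagonal plane: triples with sum zero, with the maximum norm. -/
def H : Submodule ℝ (Fin 3 → ℝ) := LinearMap.ker sumForm

theorem mem_H (v : Fin 3 → ℝ) : v ∈ H ↔ v 0 + v 1 + v 2 = 0 := LinearMap.mem_ker

theorem H_sum (v : H) : v.1 0 + v.1 1 + v.1 2 = 0 := (mem_H v.1).1 v.2

theorem finrank_H : Module.finrank ℝ H = 2 := by
  have h := LinearMap.finrank_range_add_finrank_ker sumForm
  have h1 : LinearMap.range sumForm = ⊤ := by
    rw [LinearMap.range_eq_top]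
    intro r
    refine ⟨![r, 0, 0], ?_⟩
    simp [sumForm]
  rw [h1, finrank_top] at h
  simp only [Module.finrank_self, Module.finrank_fintype_fun_eq_card, Fintype.card_fin] at h
  have : Module.finrank ℝ H = Module.finrank ℝ (LinearMap.ker sumForm) := rfl
  omega

theorem coord_le (v : H) (i : Fin 3) : |v.1 i| ≤ ‖v‖ := by
  have := norm_le_pi_norm v.1 i
  simpa [Submodule.coe_norm] using this

theorem exists_coord (v : H) {t : ℝ} (ht : 0 < t) (h : t ≤ ‖v‖) : ∃ i, t ≤ |v.1 i| := by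
  by_contra hcon
  push Not at hcon
  have : ‖v.1‖ < t := by
    rw [pi_norm_lt_iff ht]
    intro i
    exact hcon i
  have h2 : ‖v‖ = ‖v.1‖ := rfl
  linarith

theorem norm_le_of (v : H) {t : ℝ} (ht : 0 ≤ t) (h : ∀ i, |v.1 i| ≤ t) : ‖v‖ ≤ t := by
  have h2 : ‖v‖ = ‖v.1‖ := rfl
  rw [h2, pi_norm_le_iff_of_nonneg ht]
  intro i
  exact h i

/-- The coordinate functional. -/
noncomputable def coord (i : Fin 3) : H →L[ℝ] ℝ :=
  (ContinuousLinearMap.proj (R := ℝ) (φ := fun _ : Fin 3 => ℝ) i).comp H.subtypeL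

theorem coord_apply (i : Fin 3) (v : H) : coord i v = v.1 i := rfl

theorem norm_one_of (p : H →L[ℝ] ℝ) (x : H) (hp : ∀ v, |p v| ≤ ‖v‖) (hx : ‖x‖ = 1)
    (hpx : p x = 1) : ‖p‖ = 1 := by
  apply le_antisymm
  · apply ContinuousLinearMap.opNorm_le_bound _ zero_le_one
    intro v
    rw [one_mul]
    exact hp v
  · have := p.le_opNorm x
    rw [hpx, hx] at this
    simpa using this

/-- The vertex `(1, 0, -1)`. -/
def vx : H := ⟨![1, 0, -1], by rw [mem_H]; simp⟩
/-- The vector `(0, -1, 1)`. -/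
def vy : H := ⟨![0, -1, 1], by rw [mem_H]; simp⟩
/-- The vector `(1, -1, 0)`. -/
def vz : H := ⟨![1, -1, 0], by rw [mem_H]; simp⟩

theorem norm_vx : ‖vx‖ = 1 := by
  apply le_antisymm
  · apply norm_le_of _ zero_le_one
    intro i
    fin_cases i <;> simp [vx]
  · have := coord_le vx 0
    simpa [vx] using this

theorem norm_vy : ‖vy‖ = 1 := by
  apply le_antisymm
  · apply norm_le_of _ zero_le_one
    intro i
    fin_cases i <;> simp [vy]
  · have := coord_le vy 1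
    simpa [vy] using this

theorem norm_vz : ‖vz‖ = 1 := by
  apply le_antisymm
  · apply norm_le_of _ zero_le_one
    intro i
    fin_cases i <;> simp [vz]
  · have := coord_le vz 0
    simpa [vz] using this

theorem orth_xy : QuasiOrth vx vy := by
  refine ⟨coord 0, norm_one_of _ vx (fun v => ?_) norm_vx ?_, ?_, ?_⟩
  · exact coord_le v 0
  · simp [coord_apply, vx]
  · simp [coord_apply, vx]
  · simp [coord_apply, vy]

theorem orth_xz : QuasiOrth vx vz := by
  refine ⟨-coord 2, norm_one_of _ vx (fun v => ?_) norm_vx ?_, ?_, ?_⟩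
  · simpa [coord_apply] using coord_le v 2
  · simp [coord_apply, vx]
  · simp [coord_apply, vx]
  · simp [coord_apply, vz]

/-- `β⁻(ε) ≥ (2ε - 1)/3`. -/
theorem betaMinus_ge (ε : ℝ) (hε : 0 < ε) : (2 * ε - 1) / 3 ≤ betaMinus H ε := by
  unfold betaMinus
  apply le_csInf
  · exact ⟨_, vx, vx, norm_vx, norm_vx, rfl⟩
  · rintro t ⟨x, y, hx, hy, rfl⟩
    set M := max ‖x + ε • y‖ ‖x - ε • y‖ with hM
    have key : ∀ c : Fin 3, |x.1 c| + ε * |y.1 c| ≤ M := by
      intro c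
      have h1 : |x.1 c + ε * y.1 c| ≤ M := (coord_le (x + ε • y) c).trans (le_max_left _ _)
      have h2 : |x.1 c - ε * y.1 c| ≤ M := (coord_le (x - ε • y) c).trans (le_max_right _ _)
      have h3 : ε * |y.1 c| = |ε * y.1 c| := by rw [abs_mul, abs_of_pos hε]
      rw [h3]
      rw [abs_le] at h1 h2
      rcases abs_cases (x.1 c) with h | h <;> rcases abs_cases (ε * y.1 c) with h' | h' <;>
        rw [h.1, h'.1] <;> linarith [h1.1, h1.2, h2.1, h2.2]
    obtain ⟨i, hi⟩ := exists_coord x one_pos hx.ge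
    obtain ⟨j, hj⟩ := exists_coord y one_pos hy.ge
    have hs1 := H_sum x
    have hs2 := H_sum y
    have k0 := key 0
    have k1 := key 1
    have k2 := key 2
    have a0 := abs_nonneg (x.1 0)
    have a1 := abs_nonneg (x.1 1)
    have a2 := abs_nonneg (x.1 2)
    -- triangle inequalities
    have t0 : |x.1 0| ≤ |x.1 1| + |x.1 2| := by
      have : x.1 0 = -(x.1 1 + x.1 2) := by linarith
      rw [this, abs_neg]; exact abs_add_le _ _
    have t1 : |x.1 1| ≤ |x.1 0| + |x.1 2| := by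
      have : x.1 1 = -(x.1 0 + x.1 2) := by linarith
      rw [this, abs_neg]; exact abs_add_le _ _
    have t2 : |x.1 2| ≤ |x.1 0| + |x.1 1| := by
      have : x.1 2 = -(x.1 0 + x.1 1) := by linarith
      rw [this, abs_neg]; exact abs_add_le _ _
    have s0 : ε * |y.1 0| ≤ ε * |y.1 1| + ε * |y.1 2| := by
      rw [← mul_add]
      apply mul_le_mul_of_nonneg_left _ hε.le
      have : y.1 0 = -(y.1 1 + y.1 2) := by linarith
      rw [this, abs_neg]; exact abs_add_le _ _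
    have s1 : ε * |y.1 1| ≤ ε * |y.1 0| + ε * |y.1 2| := by
      rw [← mul_add]
      apply mul_le_mul_of_nonneg_left _ hε.le
      have : y.1 1 = -(y.1 0 + y.1 2) := by linarith
      rw [this, abs_neg]; exact abs_add_le _ _
    have s2 : ε * |y.1 2| ≤ ε * |y.1 0| + ε * |y.1 1| := by
      rw [← mul_add]
      apply mul_le_mul_of_nonneg_left _ hε.le
      have : y.1 2 = -(y.1 0 + y.1 1) := by linarith
      rw [this, abs_neg]; exact abs_add_le _ _
    have hj' : ε ≤ ε * |y.1 j| := by nlinarith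
    fin_cases i <;> fin_cases j <;> simp at hi hj' <;> linarith

theorem zetaMinus_le (ε : ℝ) (hε : 0 < ε) : zetaMinus H ε ≤ max 1 ε := by
  unfold zetaMinus
  have h1 : ‖vx + ε • vy‖ ≤ max 1 ε := by
    apply norm_le_of _ (le_max_of_le_left zero_le_one)
    intro i
    fin_cases i
    · simp [vx, vy]
    · simp [vx, vy, abs_of_pos hε]
    · have : (vx + ε • vy).1 2 = -1 + ε := by simp [vx, vy]
      show |(vx + ε • vy).1 2| ≤ _
      rw [this, abs_le]
      constructor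
      · have := le_max_left 1 ε
        linarith
      · have := le_max_right 1 ε
        linarith
  refine le_trans (csInf_le ⟨0, ?_⟩ ⟨vx, vy, norm_vx, norm_vy, orth_xy, rfl⟩) h1
  rintro t ⟨x, y, -, -, -, rfl⟩
  exact norm_nonneg _

theorem zetaPlus_ge (ε : ℝ) (hε : 0 < ε) : 1 + ε ≤ zetaPlus H ε := by
  unfold zetaPlus
  have h1 : 1 + ε ≤ ‖vx + ε • vz‖ := by
    have h := coord_le (vx + ε • vz) 0
    have : (vx + ε • vz).1 0 = 1 + ε := by simp [vx, vz]
    rw [this, abs_of_pos (by linarith)] at h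
    exact h
  refine le_trans h1 (le_csSup ⟨1 + ε, ?_⟩ ⟨vx, vz, norm_vx, norm_vz, orth_xz, rfl⟩)
  rintro t ⟨x, y, hx, hy, -, rfl⟩
  calc ‖x + ε • y‖ ≤ ‖x‖ + ‖ε • y‖ := norm_add_le _ _
    _ = 1 + ε := by rw [norm_smul, hx, hy, Real.norm_of_nonneg hε.le, mul_one]

theorem betaPlus_le (ε : ℝ) (hε : 0 < ε) : betaPlus H ε ≤ max (ε - 1 / 2) (ε / 2) := by
  unfold betaPlus
  apply csSup_le
  · exact ⟨_, vx, vx, norm_vx, norm_vx, rfl⟩
  · rintro t ⟨x, y, hx, hy, rfl⟩
    by_contra hcon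
    push Not at hcon
    set m := min ‖x + ε • y‖ ‖x - ε • y‖ with hm
    have hm1 : ε + 1 / 2 < m := by
      have := le_max_left (ε - 1 / 2) (ε / 2)
      linarith
    have hm2 : 1 + ε / 2 < m := by
      have := le_max_right (ε - 1 / 2) (ε / 2)
      linarith
    have hm0 : 0 < m := by linarith
    obtain ⟨i, hi⟩ := exists_coord (x + ε • y) hm0 (min_le_left _ _)
    obtain ⟨j, hj⟩ := exists_coord (x - ε • y) hm0 (min_le_right _ _)
    have e1 : (x + ε • y).1 i = x.1 i + ε * y.1 i := rfl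
    have e2 : (x - ε • y).1 j = x.1 j - ε * y.1 j := rfl
    rw [e1] at hi
    rw [e2] at hj
    have hs1 := H_sum x
    have hs2 : ε * y.1 0 + ε * y.1 1 + ε * y.1 2 = 0 := by
      rw [← mul_add, ← mul_add, H_sum y, mul_zero]
    have bx : ∀ c, -1 ≤ x.1 c ∧ x.1 c ≤ 1 := fun c => abs_le.1 ((coord_le x c).trans hx.le)
    have bY : ∀ c, -ε ≤ ε * y.1 c ∧ ε * y.1 c ≤ ε := by
      intro c
      have := abs_le.1 ((coord_le y c).trans hy.le)
      constructor <;> nlinarith [this.1, this.2]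
    have x0 := bx 0
    have x1 := bx 1
    have x2 := bx 2
    have y0 := bY 0
    have y1 := bY 1
    have y2 := bY 2
    rcases le_abs.1 hi with hi | hi <;> rcases le_abs.1 hj with hj | hj <;>
      fin_cases i <;> fin_cases j <;> simp at hi hj <;>
      linarith [x0.1, x0.2, x1.1, x1.2, x2.1, x2.2, y0.1, y0.2, y1.1, y1.2, y2.1, y2.2]

/-- In the hexagonal plane both equalities fail: the second for every `ε > 0`, the first for every
`ε ∈ (1/2, 2)`. -/
theorem hexagon :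
    Module.finrank ℝ H = 2 ∧
    (∀ ε : ℝ, 0 < ε → betaPlus H ε < zetaPlus H ε - 1) ∧
    (∀ ε : ℝ, 1 / 2 < ε → ε < 2 → zetaMinus H ε - 1 < betaMinus H ε) := by
  refine ⟨finrank_H, fun ε hε => ?_, fun ε h1 h2 => ?_⟩
  · have h1 := betaPlus_le ε hε
    have h2 := zetaPlus_ge ε hε
    have h3 : max (ε - 1 / 2) (ε / 2) < ε := max_lt (by linarith) (by linarith)
    linarith
  · have hε : 0 < ε := by linarith
    have h3 := betaMinus_ge ε hε
    have h4 := zetaMinus_le ε hε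
    have h5 : max 1 ε < 1 + (2 * ε - 1) / 3 := max_lt (by linarith) (by linarith)
    linarith

/-- **Q1 of MP_4f9fa7_an, in the negative.**  There is a two-dimensional real Banach space in which
`ζ⁺(ε) - 1 ≠ β⁺(ε)` for every `ε > 0` and `ζ⁻(ε) - 1 ≠ β⁻(ε)` for every `ε ∈ (1/2, 2)`. -/
theorem result :
    (∃ (X : Type) (_ : NormedAddCommGroup X) (_ : NormedSpace ℝ X) (_ : CompleteSpace X),
      Module.finrank ℝ X = 2 ∧
      (∀ ε : ℝ, 0 < ε → betaPlus X ε < zetaPlus X ε - 1) ∧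
      (∀ ε : ℝ, 1 / 2 < ε → ε < 2 → zetaMinus X ε - 1 < betaMinus X ε)) ∧
    ¬ (∀ (X : Type) (_ : NormedAddCommGroup X) (_ : NormedSpace ℝ X) (_ : CompleteSpace X),
      2 ≤ Module.rank ℝ X → ∀ ε : ℝ, 0 < ε →
        zetaMinus X ε - 1 = betaMinus X ε ∧ zetaPlus X ε - 1 = betaPlus X ε) := by
  refine ⟨⟨H, inferInstance, inferInstance, inferInstance, hexagon⟩, ?_⟩
  intro h
  have hr : (2 : Cardinal) ≤ Module.rank ℝ H := by
    have h1 : ((Module.finrank ℝ H : ℕ) : Cardinal) = Module.rank ℝ H :=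
      Module.finrank_eq_rank ℝ H
    rw [← h1, finrank_H]
    simp
  have h1 := (h H inferInstance inferInstance inferInstance hr 1 one_pos).2
  have h2 := hexagon.2.1 1 one_pos
  linarith

end Pool.Agent.Results.MP_4f9fa7_an.HexagonFails
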